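import Pool.Agent.Helper3.FC.Goals

/-!
# Project FC, packet HB

The number of blocks of a template with the group in `B`.
-/

set_option autoImplicit false

namespace Pool.Agent.Helper67.FC.HB

open scoped Classical BigOperators
open Pool.Agent.Helper3.FC

/-- `log 2 * b ≤ exp (-t) * 2 ^ b + (t - 1)` for the number `b` of the blocks in `B` -/
theorem count_le {n : ℕ} {J : Fin n → Type} (B : ∀ l, J l → Prop) (g : ∀ l, J l) (t : ℝ) :
    Real.log 2 * (∑ l, if B l (g l) then (1 : ℝ) else 0) ≤
      Real.exp (-t) * (∏ l, if B l (g l) then (2 : ℝ) else 1) + (t - 1) := by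
  have h1 : (∏ l, if B l (g l) then (2 : ℝ) else 1) =
      Real.exp (Real.log 2 * (∑ l, if B l (g l) then (1 : ℝ) else 0)) := by
    rw [Finset.mul_sum, Real.exp_sum]
    refine Finset.prod_congr rfl fun l _ => ?_
    split_ifs
    · rw [mul_one, Real.exp_log (by norm_num)]
    · rw [mul_zero, Real.exp_zero]
  rw [h1, ← Real.exp_add]
  have h2 := Real.add_one_le_exp
    (-t + Real.log 2 * (∑ l, if B l (g l) then (1 : ℝ) else 0))
  linarith

/-- product of the sums -/
theorem sum_prod {n : ℕ} {J : Fin n → Type} [∀ l, Fintype (J l)] (h : ∀ l, J l → ℝ) :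
    ∑ g : ∀ l, J l, ∏ l, h l (g l) = ∏ l, ∑ i, h l i := by
  rw [Finset.prod_univ_sum, Fintype.piFinset_univ]

theorem t : HBStmt := by
  intro m n w kz L η W _ _ _ B hB j hj t
  have hR : ∀ g, 0 ≤ W.R g := fun g => Finset.prod_nonneg fun l _ => W.ρ_nonneg l (g l)
  set M : ℝ := (1 - mix η W.YX j) ^ (2 * m) with hM
  have hch : ∀ g, W.yX j g ≤ 2 * (if ∀ l, W.F l (g l) then 1 else 0) * M := fun g =>
    W.yX_chain j hj g
  -- the pointwise inequality, summed
  have h1 : Real.log 2 * ∑ g : ∀ l, W.J l, W.R g * W.yX j g *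
        (∑ l, if B l (g l) then (1 : ℝ) else 0) ≤
      Real.exp (-t) * (∑ g : ∀ l, W.J l, W.R g * W.yX j g *
        (∏ l, if B l (g l) then (2 : ℝ) else 1)) + (t - 1) * W.YX j := by
    have hY : W.YX j = ∑ g : ∀ l, W.J l, W.R g * W.yX j g := rfl
    rw [hY, Finset.mul_sum, Finset.mul_sum, Finset.mul_sum, ← Finset.sum_add_distrib]
    refine Finset.sum_le_sum fun g _ => ?_
    have h2 := mul_le_mul_of_nonneg_left (count_le B g t)
      (mul_nonneg (hR g) (W.yX_nonneg j hj g))
    calc Real.log 2 * (W.R g * W.yX j g * (∑ l, if B l (g l) then (1 : ℝ) else 0))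
        = W.R g * W.yX j g * (Real.log 2 * (∑ l, if B l (g l) then (1 : ℝ) else 0)) := by ring
      _ ≤ W.R g * W.yX j g * (Real.exp (-t) * (∏ l, if B l (g l) then (2 : ℝ) else 1) +
            (t - 1)) := h2
      _ = _ := by ring
  -- the chain bound
  have h3 : (∑ g : ∀ l, W.J l, W.R g * W.yX j g * (∏ l, if B l (g l) then (2 : ℝ) else 1)) ≤
      2 * M * ∏ l, (W.f l + ∑ i, if B l i then W.ρ l i else 0) := by
    have h4 : ∀ l, (W.f l + ∑ i, if B l i then W.ρ l i else 0) =
        ∑ i, W.ρ l i * (if W.F l i then 1 else 0) * (if B l i then 2 else 1) := by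
      intro l
      have hf : W.f l = ∑ i, if W.F l i then W.ρ l i else 0 := rfl
      rw [hf, ← Finset.sum_add_distrib]
      refine Finset.sum_congr rfl fun i _ => ?_
      by_cases hb : B l i
      · simp only [hb, hB l i hb, if_true]
        ring
      · by_cases hf' : W.F l i
        · simp only [hb, hf', if_true, if_false]
          ring
        · simp only [hb, hf', if_false]
          ring
    have h5 : (∏ l, (W.f l + ∑ i, if B l i then W.ρ l i else 0)) =
        ∑ g : ∀ l, W.J l, ∏ l, (W.ρ l (g l) * (if W.F l (g l) then 1 else 0) *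
          (if B l (g l) then 2 else 1)) := by
      rw [sum_prod fun l i => W.ρ l i * (if W.F l i then 1 else 0) * (if B l i then 2 else 1)]
      exact Finset.prod_congr rfl fun l _ => h4 l
    rw [h5, Finset.mul_sum]
    refine Finset.sum_le_sum fun g _ => ?_
    have hP : 0 ≤ ∏ l, (if B l (g l) then (2 : ℝ) else 1) :=
      Finset.prod_nonneg fun l _ => by split_ifs <;> norm_num
    have hF : (if ∀ l, W.F l (g l) then (1 : ℝ) else 0) =
        ∏ l, (if W.F l (g l) then (1 : ℝ) else 0) := by
      by_cases h : ∀ l, W.F l (g l)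
      · rw [if_pos h, Finset.prod_eq_one]
        intro l _
        rw [if_pos (h l)]
      · rw [if_neg h]
        obtain ⟨l, hl⟩ := not_forall.1 h
        exact (Finset.prod_eq_zero (Finset.mem_univ l) (if_neg hl)).symm
    calc W.R g * W.yX j g * (∏ l, if B l (g l) then (2 : ℝ) else 1)
        ≤ W.R g * (2 * (if ∀ l, W.F l (g l) then 1 else 0) * M) *
            (∏ l, if B l (g l) then (2 : ℝ) else 1) :=
          mul_le_mul_of_nonneg_right (mul_le_mul_of_nonneg_left (hch g) (hR g)) hP
      _ = 2 * M * ((∏ l, W.ρ l (g l)) * (∏ l, (if W.F l (g l) then (1 : ℝ) else 0)) *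
            (∏ l, if B l (g l) then (2 : ℝ) else 1)) := by
          rw [hF]
          have : W.R g = ∏ l, W.ρ l (g l) := rfl
          rw [this]
          ring
      _ = _ := by rw [Finset.prod_mul_distrib, Finset.prod_mul_distrib]
  have h6 := mul_le_mul_of_nonneg_left h3 (Real.exp_pos (-t)).le
  linarith

end Pool.Agent.Helper67.FC.HB
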